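import Pool.Agent.V1135.CASEx

/-!
# Properties (T1) and (T2) of continuous association schemes

There is a CAS with (T1) but not (T2), and every commutative CAS with (T1) has (T2).
-/

set_option autoImplicit false

namespace Pool.Agent.Results.MP_3f01e7_al.T1T2

open MeasureTheory Pool.Agent.V1135.CAS Pool.Agent.V1135.CASEx

universe u v

theorem result :
    (∃ C : CAS (ℝ × ℝ) (ℝ × ℝ), C.T1 ∧ ¬ C.T2) ∧
    (∀ (X : Type u) (D : Type v) [TopologicalSpace X] [T2Space X] [LocallyCompactSpace X]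
      [SecondCountableTopology X] [MeasurableSpace X] [BorelSpace X] [Nonempty X]
      [TopologicalSpace D] [T2Space D] [LocallyCompactSpace D] [SecondCountableTopology D]
      [MeasurableSpace D] [BorelSpace D] (C : CAS X D), C.H.Comm → C.T1 →
      C.T2 ∧ ∀ ωX : Measure X, C.IsOmega ωX →
        ∃ ωD : Measure D, C.H.IsLeftHaar ωD ∧ C.T2For ωX ωD) := by
  refine ⟨⟨CG, CG_T1, not_T2 CG rfl⟩, ?_⟩
  intro X D _ _ _ _ _ _ _ _ _ _ _ _ _ C hcomm h1
  exact ⟨t2_of_t1 C h1 hcomm, fun ω hω => t2For_of_t1 C hω h1 hcomm⟩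

end Pool.Agent.Results.MP_3f01e7_al.T1T2
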